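import Mathlib
import Pool.Agent.N183.U9.Stm2
import Pool.Agent.N183.U8.D2
import Pool.Agent.N543.RBFFT

/-!
# Project RB (helper183), leaf FFTQ: the first fundamental theorem on the image of a projection
(helper413)
-/

set_option autoImplicit false
set_option linter.unusedSectionVars false

namespace Pool.Agent.N413.RBFFTQ

open Module Pool.Agent.Y90 Pool.Agent.N183.U8 Pool.Agent.N183.U9
open Pool.Agent.H204R3.SP (Kills bil2)

variable {V : Type} [AddCommGroup V] [Module ℂ V] [FiniteDimensional ℂ V]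
  {S : Set (End ℂ V)} {L : Submodule ℂ (End ℂ V)} {om : V →ₗ[ℂ] V →ₗ[ℂ] ℂ}

/-- The restrictions of the generators. -/
def rsS (S : Set (End ℂ V)) (A : Submodule ℂ V) : Set (End ℂ A) :=
  {B | ∃ D ∈ S, ∀ u : A, ((B u : A) : V) = D u}

theorem mem_rs {A : Submodule ℂ V} {B : End ℂ A} :
    B ∈ rs L A ↔ ∃ X ∈ L, ∀ u : A, ((B u : A) : V) = X u := Iff.rfl

theorem stb_map {A : Submodule ℂ V} (hA : Stb L A) {U : Submodule ℂ A} (hU : Stb (rs L A) U) :
    Stb L (U.map A.subtype) := by
  rintro X hX _ ⟨u, hu, rfl⟩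
  exact ⟨X.restrict (hA X hX) u, hU _ ⟨X, hX, fun _ => rfl⟩ u hu, rfl⟩

theorem irE_map {A : Submodule ℂ V} (hA : Stb L A) {U : Submodule ℂ A} (hU : IrE (rs L A) U) :
    IrE L (U.map A.subtype) := by
  obtain ⟨h0, h1, h2⟩ := hU
  refine ⟨fun h => h0 ?_, stb_map hA h1, fun W hW hWs => ?_⟩
  · refine Submodule.map_injective_of_injective (f := A.subtype) A.injective_subtype ?_
    rw [h, Submodule.map_bot]
  · have hWA : W ≤ A := hW.trans (Submodule.map_subtype_le A U)
    have h3 : (W.comap A.subtype).map A.subtype = W := by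
      rw [Submodule.map_comap_subtype]
      exact inf_eq_right.2 hWA
    have h4 : W.comap A.subtype ≤ U := by
      intro x hx
      obtain ⟨u, hu, hux⟩ := hW (show (x : V) ∈ W from hx)
      have h5 : u = x := Subtype.ext hux
      rwa [h5] at hu
    have h5 : Stb (rs L A) (W.comap A.subtype) := by
      rintro B ⟨X, hX, h⟩ u hu
      change ((B u : A) : V) ∈ W
      rw [h]
      exact hWs X hX _ hu
    rcases h2 _ h4 h5 with h6 | h6
    · left
      rw [← h3, h6, Submodule.map_bot]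
    · right
      rw [← h3, h6]

theorem ctx (k : Ctx S L om) {Q : End ℂ V} (hQQ : Q * Q = Q) (hA : Stb L (LinearMap.range Q))
    (hom : ∀ u v, om (Q u) v = om u (Q v)) :
    Ctx (rsS S (LinearMap.range Q)) (rs L (LinearMap.range Q))
      (om.domRestrict₁₂ (LinearMap.range Q) (LinearMap.range Q)) := by
  have hid : ∀ u : LinearMap.range Q, Q u = u := by
    rintro ⟨_, ⟨v, rfl⟩⟩
    exact LinearMap.congr_fun hQQ v
  refine ⟨?_, ?_, ?_, ?_, ?_, ?_, ?_⟩
  · rintro D ⟨D', hD', h⟩
    refine LinearMap.ext fun u => Subtype.ext ?_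
    rw [End.mul_apply, h, h, ← End.mul_apply, k.sq D' hD']
    rfl
  · rintro D ⟨D', hD', h⟩
    exact ⟨D', k.SL D' hD', h⟩
  · rintro A ⟨A', hA', h⟩ B ⟨B', hB', h'⟩
    refine ⟨A' * B' - B' * A', k.br A' hA' B' hB', fun u => ?_⟩
    rw [LinearMap.sub_apply, Submodule.coe_sub, End.mul_apply, End.mul_apply, h, h', h', h]
    rfl
  · intro L' hSL' hbr'
    let L'' : Submodule ℂ (End ℂ V) :=
      { carrier := {X | ∃ B ∈ L', ∀ u : LinearMap.range Q, ((B u : LinearMap.range Q) : V) = X u}
        add_mem' := by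
          rintro X Y ⟨B, hB, h⟩ ⟨C, hC, h'⟩
          refine ⟨B + C, L'.add_mem hB hC, fun u => ?_⟩
          rw [LinearMap.add_apply, Submodule.coe_add, h, h', LinearMap.add_apply]
        zero_mem' := ⟨0, L'.zero_mem, fun u => rfl⟩
        smul_mem' := by
          rintro c X ⟨B, hB, h⟩
          refine ⟨c • B, L'.smul_mem c hB, fun u => ?_⟩
          rw [LinearMap.smul_apply, Submodule.coe_smul, h, LinearMap.smul_apply] }
    have h1 : L ≤ L'' := by
      refine k.gen L'' (fun D hD => ?_) ?_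
      · exact ⟨D.restrict (hA D (k.SL D hD)), hSL' _ ⟨D, hD, fun u => rfl⟩, fun u => rfl⟩
      · rintro X ⟨B, hB, h⟩ Y ⟨C, hC, h'⟩
        refine ⟨B * C - C * B, hbr' B hB C hC, fun u => ?_⟩
        rw [LinearMap.sub_apply, Submodule.coe_sub, End.mul_apply, End.mul_apply, h, h', h', h]
        rfl
    rintro B ⟨X, hX, h⟩
    obtain ⟨C, hC, h'⟩ := h1 hX
    have h2 : B = C := LinearMap.ext fun u => Subtype.ext (by rw [h, h'])
    rwa [h2]
  · intro U hU
    obtain ⟨π, h1, h2, h3⟩ := exists_pr k.SL k.cr (stb_map hA hU)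
    refine ⟨LinearMap.ker (π.comp (LinearMap.range Q).subtype), ?_, ?_, ?_⟩
    · rintro B ⟨X, hX, h⟩ u hu
      rw [LinearMap.mem_ker, LinearMap.comp_apply, Submodule.subtype_apply] at hu ⊢
      rw [h, h3 X hX, hu, map_zero]
    · rw [Submodule.disjoint_def]
      intro x hx hx'
      rw [LinearMap.mem_ker, LinearMap.comp_apply, Submodule.subtype_apply,
        h2 x ⟨x, hx, rfl⟩] at hx'
      exact Subtype.ext hx'
    · rw [codisjoint_iff, eq_top_iff]
      intro x _
      obtain ⟨u, hu, hux⟩ := h1 x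
      have h4 : x = u + (x - u) := by rw [add_sub_cancel]
      rw [h4]
      refine Submodule.add_mem_sup hu ?_
      rw [LinearMap.mem_ker, LinearMap.comp_apply, map_sub, hux, map_sub, h2 (π x) (h1 x)]
      exact sub_self _
  · rintro B ⟨X, hX, h⟩ u v
    change om ((B u : LinearMap.range Q) : V) v + om u ((B v : LinearMap.range Q) : V) = 0
    rw [h, h]
    exact k.skw X hX u v
  · intro u hu
    refine Subtype.ext (k.nd u fun v => ?_)
    rw [← hid u, hom]
    exact hu ⟨Q v, ⟨v, rfl⟩⟩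

theorem FFTQ : S_FFTQ := by
  intro V _ _ _ S L om k Q hQQ hQS hom hb hN F hF hF2 m φ hφ hφQ
  have hQL : ∀ X ∈ L, Q * X = X * Q := comm_L k.gen fun D hD => (hQS D hD).symm
  have hQX : ∀ X ∈ L, ∀ v, Q (X v) = X (Q v) := fun X hX v => LinearMap.congr_fun (hQL X hX) v
  have hid : ∀ u : LinearMap.range Q, Q u = u := by
    rintro ⟨_, ⟨v, rfl⟩⟩
    exact LinearMap.congr_fun hQQ v
  have hA : Stb L (LinearMap.range Q) := by
    rintro X hX _ ⟨v, rfl⟩
    exact ⟨X v, hQX X hX v⟩
  have kA := ctx k hQQ hA hom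
  have hidU : ∀ U : Submodule ℂ (LinearMap.range Q),
      ∀ u ∈ U.map (LinearMap.range Q).subtype, Q u = u := by
    rintro U _ ⟨u, -, rfl⟩
    exact hid u
  let FA : ∀ (κ : Type) [Finite κ],
      Submodule ℂ (MultilinearMap ℂ (fun _ : κ => LinearMap.range Q) ℂ) := fun κ _ =>
    (F κ).comap (MultilinearMap.compLinearMapₗ (fun _ : κ => Q.rangeRestrict))
  have hmem : ∀ (κ : Type) [Finite κ] (ψ : MultilinearMap ℂ (fun _ : κ => LinearMap.range Q) ℂ),
      ψ ∈ FA κ ↔ ψ.compLinearMap (fun _ : κ => Q.rangeRestrict) ∈ F κ := fun κ _ ψ => Iff.rfl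
  have hFA : Clo FA := by
    constructor
    · intro κ _ _ ψ
      rw [hmem]
      exact hF.unit κ _
    · intro κ κ' κ'' _ _ _ e ψ ψ' χ h1 h2 h3
      rw [hmem] at h1 h2 ⊢
      refine hF.mul κ κ' κ'' e _ _ _ h1 h2 fun v => ?_
      exact h3 fun i => Q.rangeRestrict (v i)
  have key := Pool.Agent.N543.RBFFT.FFT (LinearMap.range Q) (rsS S (LinearMap.range Q))
    (rs L (LinearMap.range Q)) (om.domRestrict₁₂ (LinearMap.range Q) (LinearMap.range Q)) kA
    (by
      intro U hU
      obtain ⟨b, h1, u, hu, v, hv, h2⟩ := hb _ (irE_map hA hU) (hidU U)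
      refine ⟨b.domRestrict₁₂ (LinearMap.range Q) (LinearMap.range Q), ?_, ?_⟩
      · rintro B ⟨X, hX, h⟩ u hu v hv
        change b ((B u : LinearMap.range Q) : V) v + b u ((B v : LinearMap.range Q) : V) = 0
        rw [h, h]
        exact h1 X hX u ⟨u, hu, rfl⟩ v ⟨v, hv, rfl⟩
      · obtain ⟨u, hu, rfl⟩ := hu
        obtain ⟨v, hv, rfl⟩ := hv
        exact ⟨u, hu, v, hv, h2⟩)
    (by
      intro U hU
      obtain ⟨D, hD, ε, hε, N, hN, h1, h2, h3⟩ := hN _ (irE_map hA hU) (hidU U)
      refine ⟨D.restrict (hA D (k.SL D hD)), ⟨D, hD, fun _ => rfl⟩, ε, hε,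
        N.restrict (hA N hN), ⟨N, hN, fun _ => rfl⟩, ?_, ?_, ?_⟩
      · refine LinearMap.ext fun u => Subtype.ext ?_
        exact LinearMap.congr_fun h1 u
      · refine LinearMap.ext fun u => Subtype.ext ?_
        exact LinearMap.congr_fun h2 u
      · have h5 : (U.map (N.restrict (hA N hN))).map (LinearMap.range Q).subtype =
            (U.map (LinearMap.range Q).subtype).map N := by
          ext x
          simp only [Submodule.mem_map]
          constructor
          · rintro ⟨_, ⟨u, hu, rfl⟩, rfl⟩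
            exact ⟨_, ⟨u, hu, rfl⟩, rfl⟩
          · rintro ⟨_, ⟨u, hu, rfl⟩, rfl⟩
            exact ⟨_, ⟨u, hu, rfl⟩, rfl⟩
        rw [← h3, ← h5]
        exact (Submodule.finrank_map_subtype_eq (LinearMap.range Q) _).symm)
    FA hFA
    (by
      intro b hb
      rw [hmem]
      have h1 : (bil2 b).compLinearMap (fun _ : Fin 2 => Q.rangeRestrict) =
          bil2 (b.compl₁₂ Q.rangeRestrict Q.rangeRestrict) := rfl
      rw [h1]
      refine hF2 _ fun X hX u v => ?_
      have h2 : ∀ u, Q.rangeRestrict (X u) = X.restrict (hA X hX) (Q.rangeRestrict u) :=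
        fun u => Subtype.ext (hQX X hX u)
      rw [LinearMap.compl₁₂_apply, LinearMap.compl₁₂_apply, h2, h2]
      exact hb _ ⟨X, hX, fun _ => rfl⟩ _ _)
    m (φ.compLinearMap fun _ => (LinearMap.range Q).subtype)
    (by
      rintro B ⟨D, hD, h⟩ v
      have h1 := hφ D hD fun i => (v i : V)
      rw [← h1]
      refine Finset.sum_congr rfl fun i _ => ?_
      rw [MultilinearMap.compLinearMap_apply]
      congr 1
      funext j
      by_cases hj : j = i
      · subst hj
        rw [Function.update_self, Function.update_self, Submodule.subtype_apply, h]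
      · rw [Function.update_of_ne hj, Function.update_of_ne hj, Submodule.subtype_apply])
  rw [hmem] at key
  have h1 : (φ.compLinearMap fun _ => (LinearMap.range Q).subtype).compLinearMap
      (fun _ : Fin m × Fin 2 => Q.rangeRestrict) = φ := by
    ext v
    exact hφQ v
  rwa [h1] at key

end Pool.Agent.N413.RBFFTQ
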