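import Mathlib
import Pool.Agent.N988.EA.Stm2

/-!
# Project EA, part MARG: marginals of the infinite product
-/

open MeasureTheory Set

namespace Pool.Agent.N413.EA

open Pool.Agent.N988.EA

noncomputable section

/-- the index of an edge of `H n` -/
def idx {b : ℕ} (p : ℕ → Fin b × Bool) : (n : ℕ) → Edge b n → EdgeInf b p
  | 0, _ => .inl ()
  | n + 1, e => if h : (e.1, e.2.1) = p n then idx p n e.2.2
      else .inr ⟨n, ⟨(e.1, e.2.1), h⟩, e.2.2⟩

theorem idx_pos {b : ℕ} (p : ℕ → Fin b × Bool) (n : ℕ) (e : Edge b (n + 1))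
    (h : ((e.1, e.2.1) : Fin b × Bool) = p n) : idx p (n + 1) e = idx p n e.2.2 := dif_pos h

theorem idx_neg {b : ℕ} (p : ℕ → Fin b × Bool) (n : ℕ) (e : Edge b (n + 1))
    (h : ¬ ((e.1, e.2.1) : Fin b × Bool) = p n) :
    idx p (n + 1) e = .inr ⟨n, ⟨(e.1, e.2.1), h⟩, e.2.2⟩ := dif_neg h

theorem cpl_pos {b : ℕ} (p : ℕ → Fin b × Bool) (J : EdgeInf b p → ℝ) (n : ℕ) (e : Edge b (n + 1))
    (h : ((e.1, e.2.1) : Fin b × Bool) = p n) : cpl p J (n + 1) e = cpl p J n e.2.2 := dif_pos h

theorem cpl_neg {b : ℕ} (p : ℕ → Fin b × Bool) (J : EdgeInf b p → ℝ) (n : ℕ) (e : Edge b (n + 1))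
    (h : ¬ ((e.1, e.2.1) : Fin b × Bool) = p n) :
    cpl p J (n + 1) e = J (.inr ⟨n, ⟨(e.1, e.2.1), h⟩, e.2.2⟩) := dif_neg h

theorem cpl_idx {b : ℕ} (p : ℕ → Fin b × Bool) (J : EdgeInf b p → ℝ) (n : ℕ) :
    ∀ e : Edge b n, cpl p J n e = J (idx p n e) := by
  induction n with
  | zero => exact fun _ => rfl
  | succ n ih =>
    intro e
    by_cases h : ((e.1, e.2.1) : Fin b × Bool) = p n
    · rw [cpl_pos p J n e h, idx_pos p n e h]
      exact ih e.2.2
    · rw [cpl_neg p J n e h, idx_neg p n e h]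

theorem idx_level {b : ℕ} (p : ℕ → Fin b × Bool) (n : ℕ) :
    ∀ (e : Edge b n) (k : ℕ) (x : {q : Fin b × Bool // q ≠ p k} × Edge b k),
      idx p n e = .inr ⟨k, x⟩ → k < n := by
  induction n with
  | zero =>
    intro e k x h
    exact absurd (show (Sum.inl () : EdgeInf b p) = .inr ⟨k, x⟩ from h) Sum.inl_ne_inr
  | succ n ih =>
    intro e k x h
    by_cases h1 : ((e.1, e.2.1) : Fin b × Bool) = p n
    · rw [idx_pos p n e h1] at h
      exact (ih _ k x h).trans (Nat.lt_succ_self n)
    · rw [idx_neg p n e h1] at h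
      have h2 := Sum.inr.inj h
      have h3 : n = k := congrArg Sigma.fst h2
      omega

theorem idx_inj {b : ℕ} (p : ℕ → Fin b × Bool) (n : ℕ) :
    ∀ e f : Edge b n, idx p n e = idx p n f → e = f := by
  induction n with
  | zero => exact fun _ _ _ => rfl
  | succ n ih =>
    intro e f h
    by_cases h1 : ((e.1, e.2.1) : Fin b × Bool) = p n
    · by_cases h2 : ((f.1, f.2.1) : Fin b × Bool) = p n
      · rw [idx_pos p n e h1, idx_pos p n f h2] at h
        have h3 := ih _ _ h
        have h4 : ((e.1, e.2.1) : Fin b × Bool) = (f.1, f.2.1) := h1.trans h2.symm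
        have h5 : e.1 = f.1 := (Prod.mk.inj h4).1
        have h6 : e.2.1 = f.2.1 := (Prod.mk.inj h4).2
        exact Prod.ext h5 (Prod.ext h6 h3)
      · rw [idx_pos p n e h1, idx_neg p n f h2] at h
        exact absurd (idx_level p n _ _ _ h) (lt_irrefl _)
    · by_cases h2 : ((f.1, f.2.1) : Fin b × Bool) = p n
      · rw [idx_neg p n e h1, idx_pos p n f h2] at h
        exact absurd (idx_level p n _ _ _ h.symm) (lt_irrefl _)
      · rw [idx_neg p n e h1, idx_neg p n f h2] at h
        have h3 := eq_of_heq (Sigma.mk.inj (Sum.inr.inj h)).2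
        have h4 : ((e.1, e.2.1) : Fin b × Bool) = (f.1, f.2.1) :=
          congrArg (fun z => (z.1 : Fin b × Bool)) h3
        have h5 : e.1 = f.1 := (Prod.mk.inj h4).1
        have h6 : e.2.1 = f.2.1 := (Prod.mk.inj h4).2
        have h7 : e.2.2 = f.2.2 := congrArg (fun z => z.2) h3
        exact Prod.ext h5 (Prod.ext h6 h7)

/-- MARG -/
theorem t_MARG : S_MARG := by
  classical
  intro μ _ b p n
  have e1 : (fun (J : EdgeInf b p → ℝ) => cpl p J n) = fun J e => J (idx p n e) := by
    funext J e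
    exact cpl_idx p J n e
  rw [e1]
  have hm : Measurable (fun (J : EdgeInf b p → ℝ) (e : Edge b n) => J (idx p n e)) :=
    measurable_pi_lambda _ fun e => measurable_pi_apply _
  refine ⟨hm, ?_⟩
  have hinj : Function.Injective (idx p n) := fun e f h => idx_inj p n e f h
  show _ = Measure.pi fun _ : Edge b n => μ
  symm
  refine Measure.pi_eq fun s hs => ?_
  rw [Measure.map_apply hm (MeasurableSet.univ_pi hs)]
  set t : EdgeInf b p → Set ℝ := Function.extend (idx p n) s (fun _ => univ) with ht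
  have ht1 : ∀ e, t (idx p n e) = s e := fun e => hinj.extend_apply s _ e
  have h1 : (fun (J : EdgeInf b p → ℝ) (e : Edge b n) => J (idx p n e)) ⁻¹' (Set.univ.pi s) =
      Set.pi (Finset.univ.image (idx p n) : Finset (EdgeInf b p)) t := by
    ext J
    simp only [mem_preimage, mem_pi, mem_univ, true_implies, Finset.coe_image, Finset.coe_univ,
      image_univ, mem_range, forall_exists_index, forall_apply_eq_imp_iff, ht1]
  rw [h1, Measure.infinitePi_pi]
  · rw [Finset.prod_image fun e _ f _ h => hinj h]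
    exact Finset.prod_congr rfl fun e _ => by rw [ht1]
  · intro i hi
    obtain ⟨e, -, rfl⟩ := Finset.mem_image.1 hi
    rw [ht1]
    exact hs e

end

end Pool.Agent.N413.EA
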