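import Pool.Agent.N814.LF_UP
import Pool.Agent.N404.KL.Stm

set_option autoImplicit false

/-!
# Project KL: several random permutations and types, upper bound (helper413)
-/

namespace Pool.Agent.N413.KL_UPG

open Finset Classical Pool.Agent.N404.LF Pool.Agent.N404.KL Pool.Agent.N814.LF_UP

theorem main : S_FACT → S_UPG := by
  intro hF J T _ _ _ N f W hN hW
  set H : (J → Fin N → T) → ℝ := fun w =>
    ∏ a, (W (fun j => w j a) * ∏ j, wt (f j) (w j a)) with hH
  have hH0 : ∀ w, 0 ≤ H w := fun w => Finset.prod_nonneg fun a _ =>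
    mul_nonneg (hW _) (Finset.prod_nonneg fun j _ => wt_nonneg _ _)
  -- (2)
  have h2 : ∑ π : J → Equiv.Perm (Fin N), H (fun j => f j ∘ π j) ≤
      (∏ j, Fc (f j)) * ∑ w, H w := by
    have h := Finset.sum_fiberwise' (univ : Finset (J → Equiv.Perm (Fin N)))
      (fun π : J → Equiv.Perm (Fin N) => fun j => f j ∘ π j) H
    rw [← h, Finset.mul_sum]
    refine Finset.sum_le_sum fun w _ => ?_
    rw [Finset.sum_const, nsmul_eq_mul]
    refine mul_le_mul_of_nonneg_right ?_ (hH0 w)
    have e : (univ.filter fun π : J → Equiv.Perm (Fin N) => (fun j => f j ∘ π j) = w) =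
        Fintype.piFinset fun j => univ.filter fun r : Equiv.Perm (Fin N) => f j ∘ r = w j := by
      ext π
      rw [Finset.mem_filter, Fintype.mem_piFinset]
      simp only [Finset.mem_univ, true_and, Finset.mem_filter, funext_iff]
    rw [e, Fintype.card_piFinset]
    push_cast
    exact Finset.prod_le_prod (fun j _ => Nat.cast_nonneg _) fun j _ => fib_card (f j) (w j)
  -- (3)
  have h3 : ∑ w, H w = (∑ s : J → T, (∏ j, wt (f j) (s j)) * W s) ^ N := by
    rw [Fintype.sum_pow]
    refine Fintype.sum_equiv (Equiv.piComm fun (_ : J) (_ : Fin N) => T) _ _ fun w => ?_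
    rw [hH]
    refine Finset.prod_congr rfl fun a _ => ?_
    rw [mul_comm]
    rfl
  -- (4)
  have h4 : ∀ π : J → Equiv.Perm (Fin N), H (fun j => f j ∘ π j) =
      (∏ a, W (fun j => f j (π j a))) * ∏ j, Wt (f j) := by
    intro π
    rw [hH]
    dsimp only
    rw [Finset.prod_mul_distrib]
    congr 1
    rw [Finset.prod_comm]
    refine Finset.prod_congr rfl fun j _ => ?_
    unfold Wt
    exact Equiv.prod_comp (π j) fun y => wt (f j) (f j y)
  have hWt : 0 < ∏ j, Wt (f j) := Finset.prod_pos fun j _ => Wt_pos hN (f j)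
  have hS : 0 ≤ ∑ s : J → T, (∏ j, wt (f j) (s j)) * W s := Finset.sum_nonneg fun s _ =>
    mul_nonneg (Finset.prod_nonneg fun j _ => wt_nonneg _ _) (hW s)
  have h5 : ∏ j, Fc (f j) ≤ ((N.factorial : ℝ) * (3 * ((N : ℝ) + 1)) ^ Fintype.card T) ^
      Fintype.card J * ∏ j, Wt (f j) := by
    rw [← Finset.card_univ (α := J), ← Finset.prod_const, ← Finset.prod_mul_distrib]
    refine Finset.prod_le_prod (fun j _ => ?_) fun j _ => ?_
    · unfold Fc
      positivity
    · refine (Fc_le hF hN (f j)).trans (le_of_eq ?_)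
      ring
  simp only [h4] at h2
  rw [← Finset.sum_mul, h3] at h2
  refine le_of_mul_le_mul_right ?_ hWt
  refine h2.trans ?_
  calc (∏ j, Fc (f j)) * (∑ s : J → T, (∏ j, wt (f j) (s j)) * W s) ^ N
      ≤ (((N.factorial : ℝ) * (3 * ((N : ℝ) + 1)) ^ Fintype.card T) ^
          Fintype.card J * ∏ j, Wt (f j)) * (∑ s : J → T, (∏ j, wt (f j) (s j)) * W s) ^ N :=
        mul_le_mul_of_nonneg_right h5 (pow_nonneg hS N)
    _ = _ := by
      unfold wt
      ring

end Pool.Agent.N413.KL_UPG
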