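import Pool.Agent.N652.OM.Stm

/-!
# OM/CEN: elements commuting with the finite rank elementary matrices (helper413)
-/

set_option autoImplicit false

namespace Pool.Agent.N413.OM_CEN

open Pool.Agent.N44.NS (el)
open Pool.Agent.N652.OM

theorem eu_same (w w' : ℤ × Bool) : eu w w' 1 (Finsupp.single w' 1) = Finsupp.single w 1 := by
  unfold eu
  simp

theorem eu_apply (w w' : ℤ × Bool) (v : Vc Bool) : eu w w' 1 v = Finsupp.single w (v w') := by
  unfold eu
  simp

theorem mat {g : (Matrix (Fin 3) (Fin 3) (MM Bool))ˣ} {i j : Fin 3} (hij : i ≠ j) (r : MM Bool)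
    (h : g * el i j hij r = el i j hij r * g) :
    g.1 * Matrix.single i j r = Matrix.single i j r * g.1 := by
  have h1 := congrArg Units.val h
  rw [Units.val_mul, Units.val_mul] at h1
  change g.1 * (1 + Matrix.single i j r) = (1 + Matrix.single i j r) * g.1 at h1
  rw [mul_add, add_mul, mul_one, one_mul] at h1
  refine Matrix.ext fun k l => ?_
  have h2 := congrFun (congrFun h1 k) l
  rw [Matrix.add_apply, Matrix.add_apply] at h2
  refine LinearMap.ext fun v => ?_
  have h3 := LinearMap.congr_fun h2 v
  rw [LinearMap.add_apply, LinearMap.add_apply] at h3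
  exact add_left_cancel h3

theorem main : S_CEN := by
  intro g hg
  have hoff : ∀ k i : Fin 3, k ≠ i → ∀ (b : Bool) (m : ℤ),
      g.1 k i (Finsupp.single (m, b) 1) = 0 := by
    intro k i hki b m
    have h1 := mat (Ne.symm hki) _ (hg b i k (Ne.symm hki) m 0)
    have h2 := congrFun (congrFun h1 k) k
    rw [Matrix.mul_single_apply_same, Matrix.single_mul_apply_of_ne _ _ _ _ _ hki] at h2
    have h3 := LinearMap.congr_fun h2 (Finsupp.single ((0 : ℤ), b) 1)
    rw [Module.End.mul_apply, eu_same, LinearMap.zero_apply] at h3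
    exact h3
  have hdiag : ∀ i j : Fin 3, i ≠ j → ∀ (b : Bool) (m : ℤ),
      g.1 i i (Finsupp.single (m, b) 1) =
        Finsupp.single (m, b) (g.1 j j (Finsupp.single ((0 : ℤ), b) 1) ((0 : ℤ), b)) := by
    intro i j hij b m
    have h1 := mat hij _ (hg b i j hij m 0)
    have h2 := congrFun (congrFun h1 i) j
    rw [Matrix.mul_single_apply_same, Matrix.single_mul_apply_same] at h2
    have h3 := LinearMap.congr_fun h2 (Finsupp.single ((0 : ℤ), b) 1)
    rw [Module.End.mul_apply, Module.End.mul_apply, eu_same, eu_apply] at h3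
    exact h3
  refine ⟨fun b => g.1 0 0 (Finsupp.single ((0 : ℤ), b) 1) ((0 : ℤ), b), fun i j b m => ?_⟩
  by_cases h : i = j
  · subst h
    rw [if_pos rfl]
    by_cases hi : i = 0
    · subst hi
      have h1 := hdiag 0 1 (by decide) b m
      have h2 := hdiag 1 0 (by decide) b 0
      rw [h1, h2, Finsupp.single_eq_same]
    · exact hdiag i 0 hi b m
  · rw [if_neg h]
    exact hoff i j h b m

end Pool.Agent.N413.OM_CEN
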