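import Pool.Agent.N413.YGDefs
import Pool.Agent.W125.DimH

/-!
# Intersection graphs of connected subgraphs of subdivisions of a non-cactus are universal
-/

set_option autoImplicit false

namespace Pool.Agent.N413.YG

open Pool.Agent.W125.Dim

theorem step_adj {V : Type} {Y : SimpleGraph V} {s t : Y.edgeSet → V} {l : Y.edgeSet → ℕ}
    {a b : V ⊕ (Σ e : Y.edgeSet, Fin (l e))} (hne : a ≠ b) (h : Step Y s t l a b) :
    (subdiv Y s t l).Adj a b := by
  unfold subdiv
  rw [SimpleGraph.fromRel_adj]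
  exact ⟨hne, Or.inl h⟩

/-- the representation -/
theorem inClass_of_ranks {V : Type} [Finite V] (Y : SimpleGraph V) (hY : TripleLinked Y)
    {U : Type} [Finite U] (X : SimpleGraph U) (low : Set U) (r : Fin 3 → U → ℕ) (n : ℕ)
    (hr : ∀ i u, r i u < n)
    (hll : ∀ x ∈ low, ∀ y ∈ low, x ≠ y → X.Adj x y)
    (hhh : ∀ x, x ∉ low → ∀ y, y ∉ low → x ≠ y → X.Adj x y)
    (hlh : ∀ x ∈ low, ∀ y, y ∉ low → (X.Adj x y ↔ ∃ i, r i y ≤ r i x)) : InClass Y X := by
  classical
  obtain ⟨A, B, hAB, hA, hB, h3⟩ := hY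
  -- orientation
  have hor : ∀ e : Y.edgeSet, ∃ p : V × V, (e : Sym2 V) = s(p.1, p.2) ∧
      ((∃ a ∈ A, ∃ b ∈ B, (e : Sym2 V) = s(a, b)) → p.1 ∈ A ∧ p.2 ∈ B) := by
    intro e
    by_cases h : ∃ a ∈ A, ∃ b ∈ B, (e : Sym2 V) = s(a, b)
    · obtain ⟨a, ha, b, hb, he⟩ := h
      exact ⟨(a, b), he, fun _ => ⟨ha, hb⟩⟩
    · obtain ⟨e, he⟩ := e
      induction e using Sym2.ind with
      | _ x y => exact ⟨(x, y), rfl, fun h' => absurd h' h⟩
  choose p hp1 hp2 using hor
  -- three edges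
  obtain ⟨T, hTsub, hTcard⟩ := Set.exists_subset_card_eq h3
  have hTfin : Finite T := Set.finite_of_ncard_ne_zero (by rw [hTcard]; norm_num)
  have hT3 : Nat.card T = 3 := by rw [Nat.card_coe_set_eq]; exact hTcard
  let f0 : Fin 3 ≃ T := (Finite.equivFinOfCardEq hT3).symm
  let f : Fin 3 → Y.edgeSet := fun i => ⟨(f0 i).1, (hTsub (f0 i).2).1⟩
  have hf : Function.Injective f := by
    intro i j hij
    apply f0.injective
    apply Subtype.ext
    exact congrArg (fun e : Y.edgeSet => (e : Sym2 V)) hij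
  have hfA : ∀ i, (p (f i)).1 ∈ A ∧ (p (f i)).2 ∈ B := fun i => hp2 (f i) (hTsub (f0 i).2).2
  let s : Y.edgeSet → V := fun e => (p e).1
  let t : Y.edgeSet → V := fun e => (p e).2
  let l : Y.edgeSet → ℕ := fun e => if e ∈ Set.range f then n else 0
  have hlf : ∀ i, l (f i) = n := fun i => if_pos ⟨i, rfl⟩
  have hl0 : ∀ e, e ∉ Set.range f → l e = 0 := fun e he => if_neg he
  let H := subdiv Y s t l
  -- vertex sets
  let SL : U → Set (V ⊕ (Σ e : Y.edgeSet, Fin (l e))) := fun x =>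
    {v | (∃ a ∈ A, v = Sum.inl a) ∨ ∃ i j, v = Sum.inr ⟨f i, j⟩ ∧ (j : ℕ) ≤ r i x}
  let SH : U → Set (V ⊕ (Σ e : Y.edgeSet, Fin (l e))) := fun x =>
    {v | (∃ b ∈ B, v = Sum.inl b) ∨ ∃ i j, v = Sum.inr ⟨f i, j⟩ ∧ r i x ≤ (j : ℕ)}
  have hdisj : ∀ v, v ∈ A → v ∈ B → False := fun v h1 h2 => Set.disjoint_left.1 hAB h1 h2
  -- edges inside A or B are not subdivided
  have hedge : ∀ (C : Set V), (C = A ∨ C = B) → ∀ a ∈ C, ∀ b ∈ C, Y.Adj a b →
      H.Adj (Sum.inl a) (Sum.inl b) := by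
    intro C hC a ha b hb hab
    let e : Y.edgeSet := ⟨s(a, b), hab⟩
    have he : e ∉ Set.range f := by
      rintro ⟨i, hi⟩
      obtain ⟨a', ha', b', hb', hab'⟩ := (hTsub (f0 i).2).2
      have h1 : s(a, b) = s(a', b') := by
        rw [← hab']
        exact (congrArg (fun e : Y.edgeSet => (e : Sym2 V)) hi).symm
      rcases Sym2.eq_iff.1 h1 with ⟨e1, e2⟩ | ⟨e1, e2⟩
      · rcases hC with rfl | rfl
        · exact hdisj b hb (e2 ▸ hb')
        · exact hdisj a (e1 ▸ ha') ha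
      · rcases hC with rfl | rfl
        · exact hdisj a ha (e1 ▸ hb')
        · exact hdisj b (e2 ▸ ha') hb
    have h1 := Step.keep (Y := Y) (s := s) (t := t) (l := l) e (hl0 e he)
    have h2 : s(a, b) = s(s e, t e) := hp1 e
    rcases Sym2.eq_iff.1 h2 with ⟨h3, h4⟩ | ⟨h3, h4⟩
    · rw [← h3, ← h4] at h1
      exact step_adj (fun h => hab.ne (Sum.inl_injective h)) h1
    · rw [← h3, ← h4] at h1
      exact (step_adj (fun h => hab.ne (Sum.inl_injective h).symm) h1).symm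
  have hSLconn : ∀ x, (H.induce (SL x)).Connected := by
    intro x
    obtain ⟨a0⟩ := hA.nonempty
    rw [SimpleGraph.connected_iff_exists_forall_reachable]
    have hmA : ∀ a, a ∈ A → (Sum.inl a : V ⊕ (Σ e : Y.edgeSet, Fin (l e))) ∈ SL x :=
      fun a ha => Or.inl ⟨a, ha, rfl⟩
    have hreachA : ∀ a (ha : a ∈ A), (H.induce (SL x)).Reachable ⟨Sum.inl a0.1, hmA _ a0.2⟩
        ⟨Sum.inl a, hmA a ha⟩ := by
      intro a ha
      have h1 := hA.preconnected a0 ⟨a, ha⟩
      let φ : Y.induce A →g H.induce (SL x) :=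
        ⟨fun v => ⟨Sum.inl v.1, hmA v.1 v.2⟩, fun {v w} hvw =>
          hedge A (Or.inl rfl) v.1 v.2 w.1 w.2 hvw⟩
      exact h1.map φ
    refine ⟨⟨Sum.inl a0.1, hmA _ a0.2⟩, ?_⟩
    have hreachI : ∀ i (j : ℕ) (hj : j < l (f i)) (hj2 : j ≤ r i x),
        (H.induce (SL x)).Reachable ⟨Sum.inl a0.1, hmA _ a0.2⟩
          ⟨Sum.inr ⟨f i, ⟨j, hj⟩⟩, Or.inr ⟨i, ⟨j, hj⟩, rfl, hj2⟩⟩ := by
      intro i j
      induction j with
      | zero =>
        intro hj hj2
        refine (hreachA _ (hfA i).1).trans (SimpleGraph.Adj.reachable ?_)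
        show H.Adj _ _
        exact step_adj (by simp) (Step.first (f i) hj)
      | succ j ih =>
        intro hj hj2
        refine (ih (by omega) (by omega)).trans (SimpleGraph.Adj.reachable ?_)
        show H.Adj _ _
        exact step_adj (by simp) (Step.next (f i) j hj)
    rintro ⟨v, hv⟩
    rcases hv with ⟨a, ha, rfl⟩ | ⟨i, ⟨j, hj⟩, rfl, hj2⟩
    · exact hreachA a ha
    · exact hreachI i j hj hj2
  have hSHconn : ∀ x, (H.induce (SH x)).Connected := by
    intro x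
    obtain ⟨b0⟩ := hB.nonempty
    rw [SimpleGraph.connected_iff_exists_forall_reachable]
    have hmB : ∀ b, b ∈ B → (Sum.inl b : V ⊕ (Σ e : Y.edgeSet, Fin (l e))) ∈ SH x :=
      fun b hb => Or.inl ⟨b, hb, rfl⟩
    have hreachB : ∀ b (hb : b ∈ B), (H.induce (SH x)).Reachable ⟨Sum.inl b0.1, hmB _ b0.2⟩
        ⟨Sum.inl b, hmB b hb⟩ := by
      intro b hb
      have h1 := hB.preconnected b0 ⟨b, hb⟩
      let φ : Y.induce B →g H.induce (SH x) :=
        ⟨fun v => ⟨Sum.inl v.1, hmB v.1 v.2⟩, fun {v w} hvw =>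
          hedge B (Or.inr rfl) v.1 v.2 w.1 w.2 hvw⟩
      exact h1.map φ
    refine ⟨⟨Sum.inl b0.1, hmB _ b0.2⟩, ?_⟩
    have hreachI : ∀ i (k j : ℕ) (hk : j + k + 1 = l (f i)) (hj : j < l (f i)) (hj2 : r i x ≤ j),
        (H.induce (SH x)).Reachable ⟨Sum.inl b0.1, hmB _ b0.2⟩
          ⟨Sum.inr ⟨f i, ⟨j, hj⟩⟩, Or.inr ⟨i, ⟨j, hj⟩, rfl, hj2⟩⟩ := by
      intro i k
      induction k with
      | zero =>
        intro j hk hj hj2
        refine (hreachB _ (hfA i).2).trans (SimpleGraph.Adj.reachable ?_)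
        show H.Adj _ _
        exact (step_adj (by simp) (Step.last (f i) j hk)).symm
      | succ k ih =>
        intro j hk hj hj2
        refine (ih (j + 1) (by omega) (by omega) (by omega)).trans (SimpleGraph.Adj.reachable ?_)
        show H.Adj _ _
        have hne : (Sum.inr ⟨f i, ⟨j, hj⟩⟩ : V ⊕ (Σ e : Y.edgeSet, Fin (l e))) ≠
            Sum.inr ⟨f i, ⟨j + 1, by omega⟩⟩ := by simp
        exact (step_adj hne (Step.next (f i) j (by omega))).symm
    rintro ⟨v, hv⟩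
    rcases hv with ⟨a, ha, rfl⟩ | ⟨i, ⟨j, hj⟩, rfl, hj2⟩
    · exact hreachB a ha
    · exact hreachI i (l (f i) - j - 1) j (by omega) hj hj2
  refine ⟨_, H, ⟨s, t, l, hp1, ⟨SimpleGraph.Iso.refl⟩⟩,
    fun x => (⊤ : H.Subgraph).induce (if x ∈ low then SL x else SH x), ?_, ?_⟩
  · intro x
    by_cases hx : x ∈ low
    · simp only [hx, if_true]
      exact SimpleGraph.connected_induce_iff.1 (hSLconn x)
    · simp only [hx, if_false]
      exact SimpleGraph.connected_induce_iff.1 (hSHconn x)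
  · obtain ⟨a0⟩ := hA.nonempty
    obtain ⟨b0⟩ := hB.nonempty
    have hcross : ∀ x ∈ low, ∀ y, y ∉ low → (X.Adj x y ↔ (SL x ∩ SH y).Nonempty) := by
      intro x hx y hy
      rw [hlh x hx y hy]
      constructor
      · rintro ⟨i, hi⟩
        have h1 : r i y < l (f i) := by rw [hlf]; exact hr i y
        exact ⟨Sum.inr ⟨f i, ⟨r i y, h1⟩⟩, Or.inr ⟨i, _, rfl, hi⟩, Or.inr ⟨i, _, rfl, le_refl _⟩⟩
      · rintro ⟨v, hv1, hv2⟩
        rcases hv1 with ⟨a, ha, rfl⟩ | ⟨i, j, rfl, hj⟩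
        · rcases hv2 with ⟨b, hb, h⟩ | ⟨i', j', h, _⟩
          · rw [Sum.inl_injective h] at ha
            exact (hdisj b ha hb).elim
          · cases h
        · rcases hv2 with ⟨b, hb, h⟩ | ⟨i', j', h, hj'⟩
          · cases h
          · have h2 := Sum.inr_injective h
            have h3 : f i = f i' := congrArg Sigma.fst h2
            have h4 := hf h3
            subst h4
            have h5 : j = j' := by
              have := (Sigma.mk.inj_iff.1 h2).2
              exact eq_of_heq this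
            subst h5
            exact ⟨i, hj'.trans hj⟩
    intro x y
    simp only [SimpleGraph.Subgraph.induce_verts]
    by_cases hx : x ∈ low <;> by_cases hy : y ∈ low
    · simp only [hx, hy, if_true]
      constructor
      · intro h
        exact ⟨h.ne, Sum.inl a0.1, Or.inl ⟨_, a0.2, rfl⟩, Or.inl ⟨_, a0.2, rfl⟩⟩
      · rintro ⟨h, _⟩
        exact hll x hx y hy h
    · simp only [hx, hy, if_true, if_false]
      rw [hcross x hx y hy]
      have : x ≠ y := fun h => hy (h ▸ hx)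
      simp [this]
    · simp only [hx, hy, if_true, if_false]
      rw [X.adj_comm, hcross y hy x hx, Set.inter_comm]
      have : x ≠ y := fun h => hx (h ▸ hy)
      simp [this]
    · simp only [hx, hy, if_false]
      constructor
      · intro h
        exact ⟨h.ne, Sum.inl b0.1, Or.inl ⟨_, b0.2, rfl⟩, Or.inl ⟨_, b0.2, rfl⟩⟩
      · rintro ⟨h, _⟩
        exact hhh x hx y hy h

theorem InClass.of_iso {V U U' : Type} {Y : SimpleGraph V} {X : SimpleGraph U}
    {X' : SimpleGraph U'} (h : InClass Y X) (e : X' ≃g X) : InClass Y X' := by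
  obtain ⟨W, H, hH, S, h1, h2⟩ := h
  refine ⟨W, H, hH, fun x => S (e x), fun x => h1 _, ?_⟩
  intro x y
  rw [← e.map_adj_iff, h2]
  exact and_congr (not_congr e.injective.eq_iff) Iff.rfl

/-- lower elements of the poset -/
def lowSet {U W : Type} (A : U → W → Prop) (R : ℕ) : Set (Vtx A R) :=
  {v | match v with
    | Vtx.u _ => False
    | Vtx.w _ => True
    | Vtx.c l _ => (l : ℕ) % 2 = 0}

theorem rel_low {U W : Type} {A : U → W → Prop} {R : ℕ} (x y : Vtx A R) (h : Pool.Agent.W125.Dim.Rel x y) :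
    x ∈ lowSet A R ∧ y ∉ lowSet A R := by
  match x, y, h with
  | Vtx.c l e, Vtx.c k f, h =>
    have h' : crel l k (e = f) := h
    refine ⟨?_, ?_⟩
    · show (l : ℕ) % 2 = 0
      rcases h' with ⟨h1, _, _⟩ | ⟨h1, _⟩ <;> omega
    · show ¬ ((k : ℕ) % 2 = 0)
      rcases h' with ⟨h1, _, h2⟩ | ⟨h1, h2⟩ <;> omega
  | Vtx.c l e, Vtx.u x, ⟨h0, hx⟩ =>
    refine ⟨?_, ?_⟩
    · show (l : ℕ) % 2 = 0
      omega
    · exact id
  | Vtx.w y, Vtx.c l e, ⟨h0, hy⟩ =>
    refine ⟨trivial, ?_⟩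
    show ¬ ((l : ℕ) % 2 = 0)
    omega

theorem compl_inClass {V : Type} [Finite V] (Y : SimpleGraph V) (hY : TripleLinked Y)
    {U W : Type} [Finite U] [Finite W] {A : U → W → Prop} {R : ℕ} (N : Num U W R) :
    InClass Y (XG A R)ᶜ := by
  classical
  let K : Fin 3 → Vtx A R → ℤ × ℤ × ℤ := ![K1 N, K2 N, K3 N]
  let r : Fin 3 → Vtx A R → ℕ := fun i v => {w | tl (K i w) < tl (K i v)}.ncard
  have hmono : ∀ i x y, tl (K i x) < tl (K i y) → r i x < r i y := by
    intro i x y hxy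
    apply Set.ncard_lt_ncard _ (Set.toFinite _)
    refine ⟨fun w hw => lt_trans hw hxy, fun hsub => ?_⟩
    have h1 : x ∈ {w | tl (K i w) < tl (K i x)} := hsub hxy
    exact lt_irrefl _ (show tl (K i x) < tl (K i x) from h1)
  have hrel : ∀ x y, Pool.Agent.W125.Dim.Rel x y → ∀ i, r i x < r i y := by
    intro x y h i
    obtain ⟨h1, h2, h3⟩ := key_rel N x y h
    apply hmono
    apply tl_lt
    fin_cases i
    · exact h1
    · exact h2
    · exact h3
  have hnrel : ∀ x y, x ≠ y → ¬ Pool.Agent.W125.Dim.Rel x y → ∃ i, r i y ≤ r i x := by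
    intro x y hne h
    rcases key_nrel N x y hne h with h1 | h1 | h1
    · exact ⟨0, (hmono 0 y x (tl_lt h1)).le⟩
    · exact ⟨1, (hmono 1 y x (tl_lt h1)).le⟩
    · exact ⟨2, (hmono 2 y x (tl_lt h1)).le⟩
  refine inClass_of_ranks Y hY _ (lowSet A R) r (Nat.card (Vtx A R) + 1) ?_ ?_ ?_ ?_
  · intro i u
    exact Nat.lt_succ_of_le (Set.ncard_le_card _)
  · intro x hx y hy hne
    rw [SimpleGraph.compl_adj]
    refine ⟨hne, ?_⟩
    rintro (h | h)
    · exact (rel_low _ _ h).2 hy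
    · exact (rel_low _ _ h).2 hx
  · intro x hx y hy hne
    rw [SimpleGraph.compl_adj]
    refine ⟨hne, ?_⟩
    rintro (h | h)
    · exact hx (rel_low _ _ h).1
    · exact hy (rel_low _ _ h).1
  · intro x hx y hy
    have hne : x ≠ y := fun h => hy (h ▸ hx)
    rw [SimpleGraph.compl_adj]
    constructor
    · rintro ⟨_, h⟩
      exact hnrel x y hne (fun h' => h (Or.inl h'))
    · rintro ⟨i, hi⟩
      refine ⟨hne, ?_⟩
      rintro (h | h)
      · exact absurd (hrel x y h i) (not_lt.2 hi)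
      · exact hy (rel_low _ _ h).1

/-- automorphism groups of complements -/
def complAut {V : Type} (X : SimpleGraph V) : (X ≃g X) ≃* (Xᶜ ≃g Xᶜ) where
  toFun φ := ⟨φ.toEquiv, by
    intro a b
    simp only [SimpleGraph.compl_adj]
    refine and_congr (not_congr φ.injective.eq_iff) (not_congr φ.map_adj_iff)⟩
  invFun φ := ⟨φ.toEquiv, by
    intro a b
    have h := φ.map_adj_iff (v := a) (w := b)
    simp only [SimpleGraph.compl_adj] at h
    by_cases hab : a = b
    · subst hab; simp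
    · have hab' : φ a ≠ φ b := fun h' => hab (φ.injective h')
      simp only [ne_eq, hab, hab', not_false_eq_true, true_and] at h
      exact not_iff_not.1 h⟩
  left_inv φ := by ext x; rfl
  right_inv φ := by ext x; rfl
  map_mul' φ ψ := by ext x; rfl

theorem exists_small' {V : Type} [Finite V] (Y : SimpleGraph V) (hY : TripleLinked Y)
    (G : Type) [Group G] [Finite G] :
    ∃ (U : Type) (_ : Finite U) (X : SimpleGraph U), InClass Y X ∧ Nonempty ((X ≃g X) ≃* G) := by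
  let R := Nat.card (G ⊕ (G ⊕ G)) * (Nat.card ((G × G) ⊕ Fin (Nat.card G + 1)) + 1) + 1
  obtain ⟨N⟩ := exists_num (U := (G × G) ⊕ Fin (Nat.card G + 1)) (W := G ⊕ (G ⊕ G)) (R := R)
    (Nat.le_succ _)
  refine ⟨Vtx (GA G) R, inferInstance, (XG (GA G) R)ᶜ, compl_inClass Y hY N, ⟨?_⟩⟩
  exact (complAut _).symm.trans (MulEquiv.ofBijective (⟨⟨act R, by
    have h := act_mul R (1 : G) 1
    rw [mul_one] at h
    exact (mul_eq_left (a := act R (1 : G))).1 h.symm⟩, act_mul R⟩ : G →* _)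
    (act_bijective R (Nat.succ_pos _))).symm

/-- **Universality.** -/
theorem universal' {V : Type} [Finite V] (Y : SimpleGraph V) (hY : TripleLinked Y) :
    Universal Y := by
  intro G _ _
  obtain ⟨U, hU, X, h1, ⟨h2⟩⟩ := exists_small' Y hY G
  obtain ⟨n, ⟨f⟩⟩ := Finite.exists_equiv_fin U
  have i : X.comap f.symm ≃g X := SimpleGraph.Iso.comap f.symm X
  exact ⟨n, X.comap f.symm, h1.of_iso i, ⟨(autCongr i.symm).symm.trans h2⟩⟩

end Pool.Agent.N413.YG
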