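import Mathlib

/-!
# Intersection graphs of connected subgraphs of subdivisions: definitions
-/

set_option autoImplicit false

namespace Pool.Agent.N413.YG

/-- One step along the paths which replace the edges of `Y`: the edge `e`, directed from `s e` to
`t e`, is replaced by a path with the `l e` new internal vertices `(e, 0), …, (e, l e - 1)`. -/
inductive Step {V : Type} (Y : SimpleGraph V) (s t : Y.edgeSet → V) (l : Y.edgeSet → ℕ) :
    V ⊕ (Σ e : Y.edgeSet, Fin (l e)) → V ⊕ (Σ e : Y.edgeSet, Fin (l e)) → Prop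
  | keep (e : Y.edgeSet) (h : l e = 0) : Step Y s t l (Sum.inl (s e)) (Sum.inl (t e))
  | first (e : Y.edgeSet) (h : 0 < l e) : Step Y s t l (Sum.inl (s e)) (Sum.inr ⟨e, ⟨0, h⟩⟩)
  | next (e : Y.edgeSet) (i : ℕ) (h : i + 1 < l e) :
      Step Y s t l (Sum.inr ⟨e, ⟨i, Nat.lt_of_succ_lt h⟩⟩) (Sum.inr ⟨e, ⟨i + 1, h⟩⟩)
  | last (e : Y.edgeSet) (i : ℕ) (h : i + 1 = l e) :
      Step Y s t l (Sum.inr ⟨e, ⟨i, h ▸ Nat.lt_succ_self i⟩⟩) (Sum.inl (t e))

/-- The graph obtained from `Y` by replacing each edge `e = {s e, t e}` by a path with `l e` new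
internal vertices. -/
def subdiv {V : Type} (Y : SimpleGraph V) (s t : Y.edgeSet → V) (l : Y.edgeSet → ℕ) :
    SimpleGraph (V ⊕ (Σ e : Y.edgeSet, Fin (l e))) :=
  SimpleGraph.fromRel (Step Y s t l)

/-- `H` is a subdivision of `Y`. -/
def IsSubdivision {V W : Type} (Y : SimpleGraph V) (H : SimpleGraph W) : Prop :=
  ∃ (s t : Y.edgeSet → V) (l : Y.edgeSet → ℕ), (∀ e : Y.edgeSet, (e : Sym2 V) = s(s e, t e)) ∧
    Nonempty (H ≃g subdiv Y s t l)

/-- `X` is the intersection graph of a family of connected subgraphs of a subdivision of `Y`. -/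
def InClass {V U : Type} (Y : SimpleGraph V) (X : SimpleGraph U) : Prop :=
  ∃ (W : Type) (H : SimpleGraph W), IsSubdivision Y H ∧ ∃ S : U → H.Subgraph,
    (∀ x, (S x).Connected) ∧
    ∀ x y, X.Adj x y ↔ x ≠ y ∧ ((S x).verts ∩ (S y).verts).Nonempty

/-- The class of the graphs `InClass Y` is universal: every finite group is isomorphic to the
automorphism group of one of its finite members. -/
def Universal {V : Type} (Y : SimpleGraph V) : Prop :=
  ∀ (Γ : Type) [Group Γ] [Finite Γ], ∃ (n : ℕ) (X : SimpleGraph (Fin n)), InClass Y X ∧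
    Nonempty ((X ≃g X) ≃* Γ)

/-- There are two disjoint sets of vertices of `Y` which induce connected graphs and have at
least three edges between them (that is, `Y` has two different cycles with a common edge). -/
def TripleLinked {V : Type} (Y : SimpleGraph V) : Prop :=
  ∃ A B : Set V, Disjoint A B ∧ (Y.induce A).Connected ∧ (Y.induce B).Connected ∧
    3 ≤ {e | e ∈ Y.edgeSet ∧ ∃ a ∈ A, ∃ b ∈ B, e = s(a, b)}.ncard

end Pool.Agent.N413.YG
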